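import Pool.Agent.N237.MD.CBStm

/-!
Project CB (helper237), CB/3: a vector whose spectral measure is not singular has a nonzero inner
product with a vector whose orbit satisfies Bessel's inequality (helper273).
-/

set_option autoImplicit false

open Finset Filter Topology MeasureTheory
open scoped ComplexOrder ENNReal NNReal InnerProductSpace

noncomputable section

namespace Pool.Agent.N273.CB

open SM345 SM345.SPA Pool.Agent.N237.MD

theorem norm_fourier_one (n : ℤ) (z : AddCircle (1 : ℝ)) : ‖(fourier n z : ℂ)‖ = 1 := by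
  rw [fourier_apply]; exact Circle.norm_coe _

/-- the restriction of the character to `E` -/
def em (E : Set TT) (m : ℤ) (z : TT) : ℂ := E.indicator (fun z => (fourier m z : ℂ)) z

theorem em_memLp (σ : Measure TT) [IsFiniteMeasure σ] {E : Set TT} (hE : MeasurableSet E) (m : ℤ) :
    MemLp (em E m) 2 σ := by
  have h1 : MemLp (fun z : TT => (fourier m z : ℂ)) 2 σ := by
    refine MemLp.of_bound (fourier (T := (1 : ℝ)) m).continuous.aestronglyMeasurable 1
      (Eventually.of_forall fun z => ?_)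
    rw [norm_fourier_one]
  exact h1.indicator hE

theorem main : S_BESSEL := by
  intro H _ _ _ U ξ hns
  obtain ⟨σ, hσf, hσ⟩ := herglotz U ξ
  have hms : ¬ (volume : Measure (AddCircle (1 : ℝ))) ⟂ₘ σ := by
    intro h
    exact hns ⟨σ, hσf, hσ, h.symm⟩
  obtain ⟨ε, hε, E, hE, hEpos, hEle⟩ :=
    Measure.exists_positive_of_not_mutuallySingular (volume : Measure (AddCircle (1 : ℝ))) σ hms
  obtain ⟨W, hW1, hW2, -⟩ := cyc_iso U ξ σ hσ
  -- the vectors
  set e : ℤ → Lp ℂ 2 σ := fun m => (em_memLp σ hE m).toLp (em E m) with he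
  have hecoe : ∀ m, e m =ᵐ[σ] em E m := fun m => (em_memLp σ hE m).coeFn_toLp
  set η : H := W (e 0) with hη
  have hstep : ∀ m : ℤ, W (e (m + 1)) = U (W (e m)) := by
    intro m
    apply hW2
    filter_upwards [hecoe (m + 1), hecoe m] with z h1 h2
    rw [h1, h2]
    unfold em
    by_cases hz : z ∈ E
    · rw [Set.indicator_of_mem hz, Set.indicator_of_mem hz, add_comm, fourier_add]
    · rw [Set.indicator_of_notMem hz, Set.indicator_of_notMem hz, mul_zero]
  have hWe : ∀ m : ℤ, W (e m) = (U ^ m) η := by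
    intro m
    induction m using Int.induction_on with
    | zero => simp [hη]
    | succ i ih =>
      rw [hstep, ih]
      have : U ^ ((i : ℤ) + 1) = U * U ^ (i : ℤ) := by rw [add_comm, zpow_add, zpow_one]
      rw [this]
      rfl
    | pred i ih =>
      have h1 := hstep (-(i : ℤ) - 1)
      rw [sub_add_cancel, ih] at h1
      have : U ^ (-(i : ℤ)) = U * U ^ (-(i : ℤ) - 1) := by
        rw [← zpow_one_add]; congr 1; ring
      rw [this] at h1
      exact (U.injective h1).symm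
  -- the inner product
  have hinner : inner ℂ η ξ = ((σ.real E : ℝ) : ℂ) := by
    have h1 : ξ = W (ch σ 0) := by rw [hW1]; simp
    rw [h1, hη, W.inner_map_map, L2.inner_def]
    have h2 : (ch σ 0 : TT → ℂ) =ᵐ[σ] fun z => (fourier 0 z : ℂ) :=
      ContinuousMap.coeFn_toLp (𝕜 := ℂ) σ (fourier 0)
    have h3 : (fun a => inner ℂ ((e 0 : TT → ℂ) a) ((ch σ 0 : TT → ℂ) a)) =ᵐ[σ]
        E.indicator (fun _ => (1 : ℂ)) := by
      filter_upwards [hecoe 0, h2] with z h4 h5
      rw [h4, h5]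
      unfold em
      by_cases hz : z ∈ E
      · rw [Set.indicator_of_mem hz, Set.indicator_of_mem hz]
        simp
      · rw [Set.indicator_of_notMem hz, Set.indicator_of_notMem hz]
        simp
    rw [integral_congr_ae h3, integral_indicator hE]
    simp
  have hσE : 0 < σ.real E := by
    rw [Measure.real]
    exact ENNReal.toReal_pos hEpos.ne' (measure_ne_top _ _)
  -- domination
  have hεne : (ε : ℝ≥0∞) ≠ 0 := by exact_mod_cast hε.ne'
  have hdom : σ.restrict E ≤ ((ε : ℝ≥0∞)⁻¹) • (AddCircle.haarAddCircle : Measure TT) := by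
    refine Measure.le_iff.2 fun A hA => ?_
    rw [Measure.restrict_apply hA, Measure.smul_apply, smul_eq_mul]
    have h1 := hEle A hA
    have h2 : (volume : Measure TT) (A ∩ E) ≤ AddCircle.haarAddCircle A := by
      rw [AddCircle.volume_eq_smul_haarAddCircle, ENNReal.ofReal_one, one_smul]
      exact measure_mono Set.inter_subset_left
    calc σ (A ∩ E) = (ε : ℝ≥0∞)⁻¹ * (ε * σ (A ∩ E)) := by
          rw [← mul_assoc, ENNReal.inv_mul_cancel hεne ENNReal.coe_ne_top, one_mul]
      _ ≤ (ε : ℝ≥0∞)⁻¹ * AddCircle.haarAddCircle A := by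
          gcongr
          exact h1.trans h2
  -- the norm of finite sums
  set K : ℝ := (ε : ℝ)⁻¹ with hK
  have hKpos : 0 < K := inv_pos.2 (by exact_mod_cast hε)
  have hfin : ∀ (F : Finset ℤ) (b : ℤ → ℂ), ‖∑ m ∈ F, b m • (U ^ m) η‖ ^ 2 ≤
      K * ∑ m ∈ F, ‖b m‖ ^ 2 := by
    intro F b
    set G : C(TT, ℂ) := ∑ m ∈ F, b m • fourier m with hG
    have h1 : ∑ m ∈ F, b m • (U ^ m) η = W (∑ m ∈ F, b m • e m) := by
      rw [map_sum]
      refine Finset.sum_congr rfl fun m _ => ?_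
      rw [map_smul, hWe]
    rw [h1, W.norm_map]
    have h2 : ((∑ m ∈ F, b m • e m : Lp ℂ 2 σ) : TT → ℂ) =ᵐ[σ] E.indicator G := by
      have h3 : ∀ F : Finset ℤ, ((∑ m ∈ F, b m • e m : Lp ℂ 2 σ) : TT → ℂ) =ᵐ[σ]
          fun z => ∑ m ∈ F, b m * em E m z := by
        intro F
        induction F using Finset.induction_on with
        | empty =>
          simp only [Finset.sum_empty]
          exact Lp.coeFn_zero _ _ _
        | insert a s ha ih =>
          rw [Finset.sum_insert ha]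
          filter_upwards [Lp.coeFn_add (b a • e a) (∑ m ∈ s, b m • e m), ih,
            Lp.coeFn_smul (b a) (e a), hecoe a] with z q1 q2 q3 q4
          rw [q1, Pi.add_apply, q2, q3, Pi.smul_apply, q4, Finset.sum_insert ha, smul_eq_mul]
      refine (h3 F).trans (Eventually.of_forall fun z => ?_)
      show ∑ m ∈ F, b m * em E m z = E.indicator G z
      unfold em
      by_cases hz : z ∈ E
      · rw [Set.indicator_of_mem hz, hG]
        simp only [Set.indicator_of_mem hz]
        rw [ContinuousMap.sum_apply]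
        refine Finset.sum_congr rfl fun m _ => ?_
        rfl
      · rw [Set.indicator_of_notMem hz]
        simp only [Set.indicator_of_notMem hz, mul_zero, Finset.sum_const_zero]
    have h4 : ‖(∑ m ∈ F, b m • e m : Lp ℂ 2 σ)‖ ≤ K ^ (1 / 2 : ℝ) *
        ‖ContinuousMap.toLp (E := ℂ) 2 AddCircle.haarAddCircle ℂ G‖ := by
      rw [Lp.norm_def, Lp.norm_def, eLpNorm_congr_ae h2,
        eLpNorm_indicator_eq_eLpNorm_restrict hE,
        eLpNorm_congr_ae (ContinuousMap.coeFn_toLp (𝕜 := ℂ) AddCircle.haarAddCircle G)]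
      have h5 : eLpNorm G 2 (σ.restrict E) ≤
          eLpNorm G 2 (((ε : ℝ≥0∞)⁻¹) • (AddCircle.haarAddCircle : Measure TT)) :=
        eLpNorm_mono_measure _ hdom
      rw [eLpNorm_smul_measure_of_ne_zero (ENNReal.inv_ne_zero.2 ENNReal.coe_ne_top)] at h5
      have h6 : eLpNorm G 2 (AddCircle.haarAddCircle : Measure TT) ≠ ⊤ := by
        rw [← eLpNorm_congr_ae (ContinuousMap.coeFn_toLp (𝕜 := ℂ) (p := 2)
          AddCircle.haarAddCircle G)]
        exact Lp.eLpNorm_ne_top _
      have h7 : (((ε : ℝ≥0∞)⁻¹) ^ (1 / (2 : ℝ≥0∞)).toReal).toReal = K ^ (1 / 2 : ℝ) := by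
        rw [← ENNReal.toReal_rpow, ENNReal.toReal_inv, ENNReal.coe_toReal, hK]
        norm_num
      rw [← h7, ← ENNReal.toReal_mul]
      apply ENNReal.toReal_mono _ h5
      apply ENNReal.mul_ne_top _ h6
      apply ENNReal.rpow_ne_top_of_nonneg (by norm_num)
      exact ENNReal.inv_ne_top.2 hεne
    have h8 : ‖ContinuousMap.toLp (E := ℂ) 2 AddCircle.haarAddCircle ℂ G‖ ^ 2 =
        ∑ m ∈ F, ‖b m‖ ^ 2 := by
      have h9 : ContinuousMap.toLp (E := ℂ) 2 AddCircle.haarAddCircle ℂ G =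
          ∑ m ∈ F, b m • (fourierLp 2 m : Lp ℂ 2 (AddCircle.haarAddCircle (T := (1 : ℝ)))) := by
        rw [hG, map_sum]
        refine Finset.sum_congr rfl fun m _ => ?_
        rw [map_smul]
      have h10 := (orthonormal_fourier (T := (1 : ℝ))).inner_sum b b F
      rw [← h9, inner_self_eq_norm_sq_to_K] at h10
      have h11 : ∀ m, (starRingEnd ℂ) (b m) * b m = ((‖b m‖ ^ 2 : ℝ) : ℂ) := fun m => by
        rw [← Complex.normSq_eq_conj_mul_self, Complex.normSq_eq_norm_sq]
      simp only [h11] at h10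
      apply Complex.ofReal_injective
      rw [Complex.ofReal_sum, ← h10, Complex.ofReal_pow]
      rfl
    calc ‖(∑ m ∈ F, b m • e m : Lp ℂ 2 σ)‖ ^ 2 ≤ (K ^ (1 / 2 : ℝ) *
        ‖ContinuousMap.toLp (E := ℂ) 2 AddCircle.haarAddCircle ℂ G‖) ^ 2 :=
          pow_le_pow_left₀ (norm_nonneg _) h4 2
      _ = K * ∑ m ∈ F, ‖b m‖ ^ 2 := by
          rw [mul_pow, h8, ← Real.rpow_natCast, ← Real.rpow_mul hKpos.le]
          norm_num
  refine ⟨η, K, hKpos, ?_, fun ζ => ?_⟩
  · rw [hinner]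
    exact_mod_cast hσE.ne'
  · have hb : ∀ F : Finset ℤ, ∑ m ∈ F, ‖(inner ℂ ((U ^ m) η) ζ : ℂ)‖ ^ 2 ≤ K * ‖ζ‖ ^ 2 := by
      intro F
      set b : ℤ → ℂ := fun m => inner ℂ ((U ^ m) η) ζ with hb
      set Q := ∑ m ∈ F, ‖b m‖ ^ 2 with hQ
      have hQ0 : 0 ≤ Q := Finset.sum_nonneg fun m _ => sq_nonneg _
      set v := ∑ m ∈ F, b m • (U ^ m) η with hv
      have h1 : inner ℂ v ζ = ((Q : ℝ) : ℂ) := by
        rw [hv, sum_inner, hQ]
        push_cast
        refine Finset.sum_congr rfl fun m _ => ?_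
        rw [inner_smul_left]
        show (starRingEnd ℂ) (b m) * b m = _
        rw [← Complex.normSq_eq_conj_mul_self, Complex.normSq_eq_norm_sq]
        push_cast
        rfl
      have h2 : Q ≤ ‖v‖ * ‖ζ‖ := by
        have h3 := norm_inner_le_norm (𝕜 := ℂ) v ζ
        rw [h1, Complex.norm_real, Real.norm_eq_abs, abs_of_nonneg hQ0] at h3
        exact h3
      have h3 : ‖v‖ ^ 2 ≤ K * Q := hfin F b
      have h4 : Q ^ 2 ≤ (K * Q) * ‖ζ‖ ^ 2 := by
        calc Q ^ 2 ≤ (‖v‖ * ‖ζ‖) ^ 2 := pow_le_pow_left₀ hQ0 h2 2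
          _ = ‖v‖ ^ 2 * ‖ζ‖ ^ 2 := by ring
          _ ≤ _ := mul_le_mul_of_nonneg_right h3 (sq_nonneg _)
      rcases hQ0.eq_or_lt with h5 | h5
      · rw [← h5]; positivity
      · have h6 : Q * Q ≤ Q * (K * ‖ζ‖ ^ 2) := by nlinarith
        exact le_of_mul_le_mul_left h6 h5
    have hs : Summable (fun m : ℤ => ‖(inner ℂ ((U ^ m) η) ζ : ℂ)‖ ^ 2) :=
      summable_of_sum_le (fun m => sq_nonneg _) hb
    exact ⟨hs, hs.tsum_le_of_sum_le hb⟩

end Pool.Agent.N273.CB
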